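import Pool.Agent.H17.SD.Targets

/-!
MP_70ba79_ag, board sfg_modules, row BBQ: the quotient by a form of degree `m`.
-/

set_option autoImplicit false

open MvPolynomial SC Pool.Agent.H27.LV
open Pool.Agent.H92.SF Pool.Agent.H3.SF Pool.Agent.H17.SD

namespace Pool.Agent.H42.SFG

theorem c2 (a : ℕ) : 2 * (a + 2).choose 2 = (a + 2) * (a + 1) := by
  induction a with
  | zero => decide
  | succ n ih =>
    have h : (n + 1 + 2).choose 2 = (n + 2).choose 1 + (n + 2).choose 2 :=
      Nat.choose_succ_succ (n + 2) 1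
    rw [h, Nat.choose_one_right]
    nlinarith [ih]

theorem term_le (t m j0 i : ℕ) :
    (if i ≤ t + j0 then (t + j0 - i + 2).choose 2 else 0) ≤
      (if m ≤ t then (if i ≤ t - m then (t - m - i + 2).choose 2 else 0) else 0) +
        (m + j0) * (t + j0 + 2) := by
  by_cases h1 : i ≤ t + j0
  · rw [if_pos h1]
    obtain ⟨a, ha⟩ : ∃ a, a = t + j0 - i := ⟨_, rfl⟩
    rw [← ha]
    have hA := c2 a
    have ha2 : a + 2 ≤ t + j0 + 2 := by omega
    by_cases h2 : m ≤ t ∧ i ≤ t - m
    · rw [if_pos h2.1, if_pos h2.2]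
      obtain ⟨b, hb⟩ : ∃ b, b = t - m - i := ⟨_, rfl⟩
      rw [← hb]
      have hB := c2 b
      have hab : a = b + (m + j0) := by omega
      have h3 : (m + j0) * (a + 2) ≤ (m + j0) * (t + j0 + 2) := Nat.mul_le_mul_left _ ha2
      have h4 : (a + 2) * (a + 1) ≤ (b + 2) * (b + 1) + 2 * ((m + j0) * (a + 2)) := by
        subst hab
        nlinarith [Nat.zero_le ((m + j0) * (m + j0)), Nat.zero_le ((m + j0) * b),
          Nat.zero_le (m + j0)]
      omega
    · have h3 : a + 1 ≤ m + j0 := by
        rw [not_and_or] at h2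
        rcases h2 with h2 | h2 <;> omega
      have h4 : (a + 2) * (a + 1) ≤ 2 * ((m + j0) * (t + j0 + 2)) := by
        have h5 : (a + 2) * (a + 1) ≤ (t + j0 + 2) * (m + j0) := Nat.mul_le_mul ha2 h3
        nlinarith
      omega
  · rw [if_neg h1]
    exact Nat.zero_le _

theorem eu_u {k F : Type} [Field k] [Field F] [Algebra k F] {u : Fin 3 → F}
    {dd : Fin 3 → Derivation k F F} (h : ∀ l j, dd l (u j) = if l = j then 1 else 0) (j : Fin 3) :
    eu u dd (u j) = u j := by
  unfold eu
  rw [Fin.sum_univ_three, Derivation.add_apply, Derivation.add_apply, Derivation.smul_apply,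
    Derivation.smul_apply, Derivation.smul_apply, h, h, h]
  fin_cases j <;> simp

theorem pf_BBQ (h1 : T_BBD) (h2 : T_DMB) : T_BBQ := by
  intro k F _ _ _ _ u θ dd J j0 δ hu hfd hδ htop hint hdd hθ hJ hJ0 hden m t
  obtain ⟨-, hfin, hle, hmul⟩ := h1 k F u θ dd J j0 hu hfd htop hint hdd hθ hJ hJ0 hden
  obtain ⟨-, hD⟩ := h2 k F u θ (eu u dd) hu hfd htop hint (eu_u hdd) hθ
  have hJne : aeval u J ≠ 0 := by
    intro h
    exact hJ0 (hu.eq_zero_of_aeval_eq_zero J h)
  -- the dimension of `BB t`
  have hA : Module.finrank k (BB k u (eu u dd) t) ≤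
      Module.finrank k (Gr (PB k u θ) (eu u dd) ((t + j0 : ℕ) : ℤ)) := by
    have := (hD (t + j0)).1
    let φ : BB k u (eu u dd) t →ₗ[k] Gr (PB k u θ) (eu u dd) ((t + j0 : ℕ) : ℤ) :=
      { toFun := fun a => ⟨aeval u J * (a : F), by
          have h := hmul t a a.2
          push_cast
          exact h⟩
        map_add' := fun a b => by
          apply Subtype.ext
          change aeval u J * ((a : F) + (b : F)) = aeval u J * (a : F) + aeval u J * (b : F)
          ring
        map_smul' := fun c a => by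
          apply Subtype.ext
          change aeval u J * (c • (a : F)) = c • (aeval u J * (a : F))
          rw [mul_smul_comm] }
    refine LinearMap.finrank_le_finrank_of_injective (f := φ) ?_
    intro a b hab
    have h := congrArg Subtype.val hab
    change aeval u J * (a : F) = aeval u J * (b : F) at h
    exact Subtype.ext (mul_left_cancel₀ hJne h)
  rw [(hD (t + j0)).2, hδ] at hA
  -- the dimension of `BB (t - m)`
  have hB : (∑ i ∈ Finset.range δ,
      if m ≤ t then (if i ≤ t - m then (t - m - i + 2).choose 2 else 0) else 0) ≤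
      Module.finrank k (BB k u (eu u dd) ((t : ℤ) - m)) := by
    by_cases hm : m ≤ t
    · have h3 : ((t : ℤ) - m) = ((t - m : ℕ) : ℤ) := by push_cast [Nat.cast_sub hm]; ring
      rw [h3]
      have := hfin ((t - m : ℕ) : ℤ)
      have h4 := Submodule.finrank_mono (hle ((t - m : ℕ) : ℤ))
      rw [(hD (t - m)).2, hδ] at h4
      simp only [if_pos hm]
      exact h4
    · simp only [if_neg hm, Finset.sum_const_zero]
      exact Nat.zero_le _
  refine hA.trans ?_
  calc (∑ i ∈ Finset.range δ, if i ≤ t + j0 then (t + j0 - i + 2).choose 2 else 0)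
      ≤ ∑ i ∈ Finset.range δ,
        ((if m ≤ t then (if i ≤ t - m then (t - m - i + 2).choose 2 else 0) else 0) +
          (m + j0) * (t + j0 + 2)) := Finset.sum_le_sum (fun i _ => term_le t m j0 i)
    _ = (∑ i ∈ Finset.range δ,
        if m ≤ t then (if i ≤ t - m then (t - m - i + 2).choose 2 else 0) else 0) +
          δ * (m + j0) * (t + j0 + 2) := by
        rw [Finset.sum_add_distrib, Finset.sum_const, Finset.card_range, smul_eq_mul, mul_assoc]
    _ ≤ _ := Nat.add_le_add_right hB _

end Pool.Agent.H42.SFG
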